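import Pool.Agent.Y217.PB.Stm

/-!
# PB-P1, PB-P2: increasing edges and degrees of polytopes (`JInc`, `JDeg`)
-/

set_option autoImplicit false

namespace Pool.Agent.Y77.PB

open Set Topology Metric
open scoped InnerProductSpace
open Pool.Agent.Y217.PB

/-- the face of `K` where a functional takes a value which bounds it on `K` is extreme -/
theorem face_isExtreme {N : ℕ} {K : Set (EuclideanSpace ℝ (Fin N))}
    {n : EuclideanSpace ℝ (Fin N)} {m : ℝ} (hm : ∀ r ∈ K, ⟪n, r⟫_ℝ ≤ m) :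
    IsExtreme ℝ K {r | r ∈ K ∧ ⟪n, r⟫_ℝ = m} := by
  refine ⟨fun x hx => hx.1, ?_⟩
  rintro x hx y hy z ⟨hz, hzm⟩ ⟨a, b, ha, hb, hab, rfl⟩
  refine ⟨hx, ?_⟩
  rw [inner_add_right, inner_smul_right, inner_smul_right] at hzm
  have h1 := hm x hx
  have h2 := hm y hy
  have h3 : a * ⟪n, x⟫_ℝ + b * ⟪n, y⟫_ℝ ≤ a * ⟪n, x⟫_ℝ + b * m := by
    have := mul_le_mul_of_nonneg_left h2 hb.le
    linarith
  have h4 : a * m ≤ a * ⟪n, x⟫_ℝ := by
    have : a * m + b * m = m := by rw [← add_mul, hab, one_mul]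
    linarith
  have h5 : m ≤ ⟪n, x⟫_ℝ := le_of_mul_le_mul_left h4 ha
  exact le_antisymm h1 h5

theorem face_compact {N : ℕ} {K : Set (EuclideanSpace ℝ (Fin N))} (hK : IsCompact K)
    (n : EuclideanSpace ℝ (Fin N)) (m : ℝ) : IsCompact {r | r ∈ K ∧ ⟪n, r⟫_ℝ = m} := by
  have : {r | r ∈ K ∧ ⟪n, r⟫_ℝ = m} = K ∩ {r | ⟪n, r⟫_ℝ = m} := rfl
  rw [this]
  exact hK.inter_right (isClosed_eq (by fun_prop) continuous_const)

theorem face_convex {N : ℕ} {K : Set (EuclideanSpace ℝ (Fin N))} (hK : Convex ℝ K)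
    (n : EuclideanSpace ℝ (Fin N)) (m : ℝ) : Convex ℝ {r | r ∈ K ∧ ⟪n, r⟫_ℝ = m} := by
  intro x hx y hy a b ha hb hab
  refine ⟨hK hx.1 hy.1 ha hb hab, ?_⟩
  rw [inner_add_right, inner_smul_right, inner_smul_right, hx.2, hy.2, ← add_mul, hab, one_mul]

/-- a polytope is the convex hull of its extreme points -/
theorem hull_ext {N : ℕ} {K : Set (EuclideanSpace ℝ (Fin N))} (hK : IsCompact K)
    (hc : Convex ℝ K) (hf : (extremePoints ℝ K).Finite) :
    convexHull ℝ (extremePoints ℝ K) = K := by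
  have h := closure_convexHull_extremePoints hK hc
  rwa [(hf.isClosed_convexHull ℝ).closure_eq] at h

/-- the end of an edge is an extreme point -/
theorem pedge_ext {N : ℕ} {K : Set (EuclideanSpace ℝ (Fin N))} (hK : IsCompact K)
    (hc : Convex ℝ K) {p q : EuclideanSpace ℝ (Fin N)} (h : PEdge K p q) :
    q ∈ extremePoints ℝ K := by
  obtain ⟨hne, n, m, hm, hseg⟩ := h
  have hE := face_isExtreme (K := K) hm
  have hcomp := face_compact hK n m
  have hconv := face_convex hc n m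
  have h1 := hE.extremePoints_subset_extremePoints
  apply h1
  rw [hseg] at *
  by_contra hq
  have h2 : extremePoints ℝ (segment ℝ p q) ⊆ {p} := by
    intro x hx
    have h3 : x ∈ extremePoints ℝ (convexHull ℝ {p, q}) := by rwa [convexHull_pair]
    rcases extremePoints_convexHull_subset h3 with h4 | h4
    · exact h4
    · rw [mem_singleton_iff] at h4
      subst h4
      exact absurd hx hq
  have h3 := closure_convexHull_extremePoints hcomp hconv
  have h4 : segment ℝ p q ⊆ {p} := by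
    rw [← h3]
    refine closure_minimal (convexHull_min h2 (convex_singleton p)) isClosed_singleton
  have h5 := h4 (right_mem_segment ℝ p q)
  rw [mem_singleton_iff] at h5
  exact hne h5.symm

theorem inc : JInc := by
  classical
  intro N K hK hc hf p u hp hr
  set V := extremePoints ℝ K with hV
  have hhull : convexHull ℝ V = K := hull_ext hK hc hf
  -- an exposing functional
  obtain ⟨n0, hn0⟩ : ∃ n0 : EuclideanSpace ℝ (Fin N), ∀ r ∈ V \ {p}, ⟪n0, r - p⟫_ℝ < 0 := by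
    have hpn : p ∉ convexHull ℝ (V \ {p}) := by
      have h1 := (hc.mem_extremePoints_iff_mem_sdiff_convexHull_sdiff (x := p)).1 hp
      intro h2
      exact h1.2 (convexHull_mono (sdiff_subset_sdiff_left extremePoints_subset) h2)
    have hcl : IsClosed (convexHull ℝ (V \ {p})) := (hf.subset sdiff_subset).isClosed_convexHull ℝ
    obtain ⟨f, c, h1, h2⟩ := geometric_hahn_banach_point_closed
      (convex_convexHull ℝ (V \ {p})) hcl hpn
    refine ⟨(InnerProductSpace.toDual ℝ (EuclideanSpace ℝ (Fin N))).symm (-f), fun r hr => ?_⟩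
    rw [InnerProductSpace.toDual_symm_apply]
    have h3 := h2 r (subset_convexHull ℝ _ hr)
    simp only [neg_apply, map_sub]
    linarith
  -- the vertices above `p`
  set R : Set (EuclideanSpace ℝ (Fin N)) := {r | r ∈ V ∧ ⟪u, p⟫_ℝ < ⟪u, r⟫_ℝ} with hR
  have hRf : R.Finite := hf.subset fun r hr => hr.1
  have hRne : R.Nonempty := by
    by_contra hcon
    rw [not_nonempty_iff_eq_empty] at hcon
    obtain ⟨r, hrK, hru⟩ := hr
    have : K ⊆ {x | ⟪u, x⟫_ℝ ≤ ⟪u, p⟫_ℝ} := by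
      rw [← hhull]
      apply convexHull_min
      · intro x hx
        by_contra h
        have : x ∈ R := ⟨hx, not_le.1 h⟩
        rw [hcon] at this
        exact this
      · intro x hx y hy a b ha hb hab
        simp only [mem_ofPred_eq] at hx hy ⊢
        rw [inner_add_right, inner_smul_right, inner_smul_right]
        have h1 := mul_le_mul_of_nonneg_left hx ha
        have h2 := mul_le_mul_of_nonneg_left hy hb
        have h3 : a * ⟪u, p⟫_ℝ + b * ⟪u, p⟫_ℝ = ⟪u, p⟫_ℝ := by rw [← add_mul, hab, one_mul]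
        linarith
    have h := this hrK
    simp only [mem_ofPred_eq] at h
    linarith
  set ρ : EuclideanSpace ℝ (Fin N) → EuclideanSpace ℝ (Fin N) :=
    fun r => (⟪u, r - p⟫_ℝ)⁻¹ • (r - p) with hρ
  have hupos : ∀ r ∈ R, 0 < ⟪u, r - p⟫_ℝ := by
    intro r hr
    rw [inner_sub_right]
    linarith [hr.2]
  have hρne : ∀ r ∈ R, ∀ s ∈ R, r ≠ s → ρ r ≠ ρ s := by
    have key : ∀ r ∈ R, ∀ s ∈ R, ρ r = ρ s → ⟪u, r - p⟫_ℝ < ⟪u, s - p⟫_ℝ → False := by
      intro r hr s hs heq hlt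
      have ha := hupos r hr
      have hb := hupos s hs
      simp only [hρ] at heq
      have h1 : r - p = (⟪u, r - p⟫_ℝ / ⟪u, s - p⟫_ℝ) • (s - p) := by
        rw [div_eq_mul_inv, mul_smul, ← heq, smul_smul, mul_inv_cancel₀ ha.ne', one_smul]
      set c := ⟪u, r - p⟫_ℝ / ⟪u, s - p⟫_ℝ with hcdef
      have hc0 : 0 < c := div_pos ha hb
      have hc1 : c < 1 := (div_lt_one hb).2 hlt
      have h2 : r ∈ openSegment ℝ p s := by
        refine ⟨1 - c, c, by linarith, hc0, by ring, ?_⟩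
        have : r = p + c • (s - p) := by rw [← h1]; abel
        rw [this, smul_sub, sub_smul, one_smul]
        abel
      have h3 := (mem_extremePoints.1 hr.1).2 p hp.1 s hs.1.1 h2
      have h4 := hr.2
      rw [← h3.1] at h4
      exact lt_irrefl _ h4
    intro r hr s hs hrs heq
    rcases lt_trichotomy (⟪u, r - p⟫_ℝ) (⟪u, s - p⟫_ℝ) with h | h | h
    · exact key r hr s hs heq h
    · apply hrs
      simp only [hρ] at heq
      rw [h] at heq
      have := smul_right_injective _ (inv_ne_zero (hupos s hs).ne') heq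
      simpa using this
    · exact key s hs r hr heq.symm h
  -- a generic direction
  have hPf : (R ×ˢ R).Finite := hRf.prod hRf
  obtain ⟨d, hd⟩ : ∃ d : EuclideanSpace ℝ (Fin N), ∀ r ∈ R, ∀ s ∈ R, r ≠ s →
      ⟪d, ρ r - ρ s⟫_ℝ ≠ 0 := by
    have : Finite {x : EuclideanSpace ℝ (Fin N) × EuclideanSpace ℝ (Fin N) //
        x ∈ R ×ˢ R ∧ x.1 ≠ x.2} := (hPf.subset fun x hx => hx.1).to_subtype
    obtain ⟨f, hf⟩ := Module.exists_dual_forall_apply_ne_zero (K := ℝ)
      (fun x : {x : EuclideanSpace ℝ (Fin N) × EuclideanSpace ℝ (Fin N) //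
        x ∈ R ×ˢ R ∧ x.1 ≠ x.2} => ρ x.1.1 - ρ x.1.2)
      (fun x => sub_ne_zero.2 (hρne _ x.2.1.1 _ x.2.1.2 x.2.2))
    refine ⟨(InnerProductSpace.toDual ℝ (EuclideanSpace ℝ (Fin N))).symm
      (LinearMap.toContinuousLinearMap f), fun r hr s hs hrs => ?_⟩
    rw [InnerProductSpace.toDual_symm_apply]
    exact hf ⟨(r, s), ⟨hr, hs⟩, hrs⟩
  -- a generic exposing functional
  obtain ⟨n, hn1, hn2⟩ : ∃ n : EuclideanSpace ℝ (Fin N), (∀ r ∈ V \ {p}, ⟪n, r - p⟫_ℝ < 0) ∧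
      ∀ r ∈ R, ∀ s ∈ R, r ≠ s → ⟪n, ρ r - ρ s⟫_ℝ ≠ 0 := by
    have h1 : ∀ᶠ ε in 𝓝[>] (0 : ℝ), ∀ r ∈ V \ {p}, ⟪n0 + ε • d, r - p⟫_ℝ < 0 := by
      rw [Filter.eventually_all_finite (hf.subset sdiff_subset)]
      intro r hr
      have hcont : Continuous fun ε : ℝ => ⟪n0 + ε • d, r - p⟫_ℝ := by fun_prop
      have h2 : ∀ᶠ ε in 𝓝 (0 : ℝ), ⟪n0 + ε • d, r - p⟫_ℝ < 0 := by
        apply hcont.continuousAt.eventually_lt continuousAt_const
        simpa using hn0 r hr
      exact nhdsWithin_le_nhds h2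
    have h2 : ∀ᶠ ε in 𝓝[>] (0 : ℝ), ∀ x ∈ R ×ˢ R, x.1 ≠ x.2 →
        ⟪n0 + ε • d, ρ x.1 - ρ x.2⟫_ℝ ≠ 0 := by
      rw [Filter.eventually_all_finite hPf]
      intro x hx
      by_cases hxe : x.1 = x.2
      · exact Filter.Eventually.of_forall fun _ h => absurd hxe h
      by_cases h0 : ⟪n0, ρ x.1 - ρ x.2⟫_ℝ = 0
      · filter_upwards [self_mem_nhdsWithin] with ε hε _
        rw [inner_add_left, h0, zero_add, real_inner_smul_left]
        exact mul_ne_zero (ne_of_gt hε) (hd _ hx.1 _ hx.2 hxe)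
      · have hcont : Continuous fun ε : ℝ => ⟪n0 + ε • d, ρ x.1 - ρ x.2⟫_ℝ := by fun_prop
        have h2 : ∀ᶠ ε in 𝓝 (0 : ℝ), ⟪n0 + ε • d, ρ x.1 - ρ x.2⟫_ℝ ≠ 0 := by
          apply hcont.continuousAt.eventually_ne
          simpa using h0
        filter_upwards [nhdsWithin_le_nhds h2] with ε hε _
        exact hε
    obtain ⟨ε, h3, h4⟩ := (h1.and h2).exists
    exact ⟨n0 + ε • d, h3, fun r hr s hs hrs => h4 (r, s) ⟨hr, hs⟩ hrs⟩
  -- the best vertex
  obtain ⟨q, hqR, hqmax⟩ := Set.exists_max_image R (fun r => ⟪n, ρ r⟫_ℝ) hRf hRne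
  have hqV : q ∈ V := hqR.1
  have hqp : q ≠ p := by
    rintro rfl
    exact lt_irrefl _ hqR.2
  have hqlt : ∀ r ∈ R, r ≠ q → ⟪n, ρ r⟫_ℝ < ⟪n, ρ q⟫_ℝ := by
    intro r hr hrq
    refine lt_of_le_of_ne (hqmax r hr) fun h => hn2 r hr q hqR hrq ?_
    rw [inner_sub_right, h, sub_self]
  have hρin : ∀ r ∈ R, ⟪n, r - p⟫_ℝ = ⟪u, r - p⟫_ℝ * ⟪n, ρ r⟫_ℝ := by
    intro r hr
    simp only [hρ, inner_smul_right]
    rw [← mul_assoc, mul_inv_cancel₀ (hupos r hr).ne', one_mul]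
  have hρneg : ∀ r ∈ R, ⟪n, ρ r⟫_ℝ < 0 := by
    intro r hr
    have hrp : r ≠ p := by
      rintro rfl
      exact lt_irrefl _ hr.2
    have h1 := hn1 r ⟨hr.1, hrp⟩
    rw [hρin r hr] at h1
    by_contra h2
    push Not at h2
    have := mul_nonneg (hupos r hr).le h2
    linarith
  set lam : ℝ := - ⟪n, ρ q⟫_ℝ with hlam
  have hlpos : 0 < lam := by
    have := hρneg q hqR
    simp only [hlam]; linarith
  set n' := n + lam • u with hn'
  have hn'r : ∀ r, ⟪n', r - p⟫_ℝ = ⟪n, r - p⟫_ℝ + lam * ⟪u, r - p⟫_ℝ := by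
    intro r
    rw [hn', inner_add_left, real_inner_smul_left]
  have hq0 : ⟪n', q - p⟫_ℝ = 0 := by
    rw [hn'r, hρin q hqR, hlam]
    ring
  have hVlt : ∀ r ∈ V, r ≠ p → r ≠ q → ⟪n', r - p⟫_ℝ < 0 := by
    intro r hr hrp hrq
    rw [hn'r]
    by_cases hrR : r ∈ R
    · rw [hρin r hrR]
      have h1 := hqlt r hrR hrq
      have h2 := hupos r hrR
      have h3 : ⟪n, ρ r⟫_ℝ + lam < 0 := by simp only [hlam]; linarith
      have h4 := mul_neg_of_pos_of_neg h2 h3
      linarith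
    · have h1 := hn1 r ⟨hr, hrp⟩
      have h2 : ⟪u, r - p⟫_ℝ ≤ 0 := by
        rw [inner_sub_right]
        have : ¬ (⟪u, p⟫_ℝ < ⟪u, r⟫_ℝ) := fun h => hrR ⟨hr, h⟩
        linarith
      have h3 := mul_nonpos_of_nonneg_of_nonpos hlpos.le h2
      linarith
  have hVle : ∀ r ∈ V, ⟪n', r⟫_ℝ ≤ ⟪n', p⟫_ℝ := by
    intro r hr
    by_cases h1 : r = p
    · rw [h1]
    by_cases h2 : r = q
    · have := hq0
      rw [inner_sub_right] at this
      rw [h2]; linarith
    · have := hVlt r hr h1 h2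
      rw [inner_sub_right] at this
      linarith
  have hKle : ∀ r ∈ K, ⟪n', r⟫_ℝ ≤ ⟪n', p⟫_ℝ := by
    have : K ⊆ {x | ⟪n', x⟫_ℝ ≤ ⟪n', p⟫_ℝ} := by
      rw [← hhull]
      apply convexHull_min
      · intro x hx
        exact hVle x hx
      · intro x hx y hy a b ha hb hab
        simp only [mem_ofPred_eq] at hx hy ⊢
        rw [inner_add_right, inner_smul_right, inner_smul_right]
        have h1 := mul_le_mul_of_nonneg_left hx ha
        have h2 := mul_le_mul_of_nonneg_left hy hb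
        have h3 : a * ⟪n', p⟫_ℝ + b * ⟪n', p⟫_ℝ = ⟪n', p⟫_ℝ := by rw [← add_mul, hab, one_mul]
        linarith
    exact fun r hr => this hr
  refine ⟨q, ⟨hqp.symm, n', ⟪n', p⟫_ℝ, hKle, ?_⟩, hqR.2⟩
  have hE := face_isExtreme (K := K) hKle
  have hcomp := face_compact hK n' ⟪n', p⟫_ℝ
  have hconv := face_convex hc n' ⟪n', p⟫_ℝ
  set F := {r | r ∈ K ∧ ⟪n', r⟫_ℝ = ⟪n', p⟫_ℝ} with hF
  have hext : extremePoints ℝ F = {p, q} := by
    rw [hE.extremePoints_eq]
    ext x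
    simp only [mem_inter_iff, mem_insert_iff, mem_singleton_iff]
    constructor
    · rintro ⟨hxF, hxV⟩
      by_contra hcon
      push Not at hcon
      have h1 := hVlt x hxV hcon.1 hcon.2
      have h2 := hxF.2
      rw [inner_sub_right] at h1
      linarith
    · rintro (rfl | rfl)
      · exact ⟨⟨hp.1, rfl⟩, hp⟩
      · refine ⟨⟨hqV.1, ?_⟩, hqV⟩
        have := hq0
        rw [inner_sub_right] at this
        linarith
  have h1 := hull_ext hcomp hconv (by rw [hext]; exact (finite_singleton q).insert p)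
  rw [hext, convexHull_pair] at h1
  exact h1.symm

theorem deg (hI : JInc) : JDeg := by
  classical
  intro N K hK hc hf p n m hp hm hpm
  have hsub : {q | PEdge K p q} ⊆ extremePoints ℝ K := fun q hq => pedge_ext hK hc hq
  refine ⟨hf.subset hsub, ?_⟩
  set F := {r | r ∈ K ∧ ⟪n, r⟫_ℝ = m} with hF
  set Q := {q | PEdge K p q ∧ ⟪n, q⟫_ℝ = m} with hQ
  have hQf : Q.Finite := (hf.subset hsub).subset fun q hq => hq.1
  have hpF : p ∈ F := ⟨hp.1, hpm⟩
  by_contra hlt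
  push Not at hlt
  set W : Submodule ℝ (EuclideanSpace ℝ (Fin N)) :=
    Submodule.span ℝ ((fun q => q - p) '' Q) with hW
  have hWle : W ≤ vectorSpan ℝ F := by
    rw [hW, Submodule.span_le]
    rintro _ ⟨q, hq, rfl⟩
    have hqF : q ∈ F := ⟨(pedge_ext hK hc hq.1).1, hq.2⟩
    exact vsub_mem_vectorSpan ℝ hqF hpF
  have hWcard : Module.finrank ℝ W ≤ Q.ncard := by
    have : Fintype ((fun q => q - p) '' Q) := (hQf.image _).fintype
    have h1 := finrank_span_le_card (R := ℝ) ((fun q => q - p) '' Q)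
    rw [← Set.ncard_eq_toFinset_card'] at h1
    exact h1.trans (Set.ncard_image_le hQf)
  obtain ⟨u, huF, huW, hu0⟩ : ∃ u ∈ vectorSpan ℝ F, u ∈ Wᗮ ∧ u ≠ 0 := by
    by_contra hcon
    push Not at hcon
    have h1 := Submodule.sup_orthogonal_inf_of_hasOrthogonalProjection hWle
    have h2 : Wᗮ ⊓ vectorSpan ℝ F = ⊥ := by
      rw [eq_bot_iff]
      intro x hx
      exact (Submodule.mem_bot ℝ).2 (hcon x hx.2 hx.1)
    rw [h2, sup_bot_eq] at h1
    rw [← h1] at hlt
    omega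
  have hnc : ∃ r ∈ F, ⟪u, r - p⟫_ℝ ≠ 0 := by
    by_contra hcon
    push Not at hcon
    apply hu0
    have h1 : vectorSpan ℝ F ≤ (ℝ ∙ u)ᗮ := by
      rw [vectorSpan_eq_span_vsub_set_right ℝ hpF, Submodule.span_le]
      rintro _ ⟨r, hr, rfl⟩
      rw [SetLike.mem_coe, Submodule.mem_orthogonal_singleton_iff_inner_right]
      exact hcon r hr
    have h2 := h1 huF
    rw [Submodule.mem_orthogonal_singleton_iff_inner_right] at h2
    exact inner_self_eq_zero.1 h2
  -- fix the sign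
  obtain ⟨v, hvW, r, hrF, hvr⟩ : ∃ v ∈ Wᗮ, ∃ r ∈ F, 0 < ⟪v, r - p⟫_ℝ := by
    obtain ⟨r, hr, h⟩ := hnc
    rcases lt_or_gt_of_ne h with h1 | h1
    · refine ⟨-u, Submodule.neg_mem _ huW, r, hr, ?_⟩
      rw [inner_neg_left]; linarith
    · exact ⟨u, huW, r, hr, h1⟩
  -- a large multiple of `n`
  obtain ⟨L, hL⟩ : ∃ L : ℝ, ∀ s ∈ extremePoints ℝ K, ⟪n, s⟫_ℝ < m →
      ⟪v + L • n, s⟫_ℝ < ⟪v + L • n, p⟫_ℝ := by
    have h1 : ∀ᶠ L in (Filter.atTop : Filter ℝ), ∀ s ∈ extremePoints ℝ K, ⟪n, s⟫_ℝ < m →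
        ⟪v + L • n, s⟫_ℝ < ⟪v + L • n, p⟫_ℝ := by
      rw [Filter.eventually_all_finite hf]
      intro s hs
      by_cases hsm : ⟪n, s⟫_ℝ < m
      · filter_upwards [Filter.eventually_gt_atTop ((⟪v, s⟫_ℝ - ⟪v, p⟫_ℝ) / (m - ⟪n, s⟫_ℝ))]
          with L hL _
        rw [div_lt_iff₀ (by linarith)] at hL
        rw [inner_add_left, inner_add_left, real_inner_smul_left, real_inner_smul_left, hpm]
        linarith
      · exact Filter.Eventually.of_forall fun _ h => absurd h hsm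
    exact h1.exists
  obtain ⟨q, hq, hlt'⟩ := hI N K hK hc hf p (v + L • n) hp
    ⟨r, hrF.1, by
      rw [inner_add_left, inner_add_left, real_inner_smul_left, real_inner_smul_left, hpm, hrF.2]
      rw [inner_sub_right] at hvr
      linarith⟩
  have hqV := pedge_ext hK hc hq
  have hqm : ⟪n, q⟫_ℝ = m := by
    by_contra h
    have h1 := hL q hqV (lt_of_le_of_ne (hm q hqV.1) h)
    linarith
  have hqQ : q ∈ Q := ⟨hq, hqm⟩
  have h0 : ⟪v, q - p⟫_ℝ = 0 := by
    have h1 : q - p ∈ W := Submodule.subset_span ⟨q, hqQ, rfl⟩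
    have h2 := (Submodule.mem_orthogonal W v).1 hvW (q - p) h1
    rw [real_inner_comm]
    exact h2
  rw [inner_add_left, inner_add_left, real_inner_smul_left, real_inner_smul_left, hpm, hqm] at hlt'
  rw [inner_sub_right] at h0
  linarith

end Pool.Agent.Y77.PB
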